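import Pool.Agent.Helper4.AE.St

/-!
# Project AE (MP_35947b_nt), modules SZ and PHI
-/

set_option autoImplicit false

namespace Pool.Agent.Helper91.AE

open Pool.Agent.Helper4.AE Finset

theorem hSZ : StSZ := by
  intro m _ r A hA
  have h1 : ∑ n : ZMod m, sg A n = (A ×ˢ A).card := by
    unfold sg
    exact (Finset.card_eq_sum_card_fiberwise (fun _ _ => Finset.mem_coe.2 (Finset.mem_univ _))).symm
  have h2 : ∑ _n : ZMod m, 1 ≤ ∑ n : ZMod m, sg A n := Finset.sum_le_sum fun n _ => (hA n).1
  rw [h1, Finset.card_product] at h2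
  simp only [Finset.sum_const, Finset.card_univ, ZMod.card, smul_eq_mul, mul_one] at h2
  rw [pow_two]
  exact h2

theorem hPHI : StPHI := by
  intro n hn
  calc n = ∑ d ∈ n.divisors, Nat.totient d := (Nat.sum_totient n).symm
    _ ≤ ∑ _d ∈ n.divisors, Nat.totient n := by
        apply Finset.sum_le_sum
        intro d hd
        exact Nat.le_of_dvd (Nat.totient_pos.2 hn) (Nat.totient_dvd_of_dvd (Nat.dvd_of_mem_divisors hd))
    _ = Nat.totient n * n.divisors.card := by
        rw [Finset.sum_const, smul_eq_mul, mul_comm]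

end Pool.Agent.Helper91.AE
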